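import Pool.Agent.Work.MP_d5b3be_an.BN.All

/-!
# The Brezis-Nirenberg problem in bodies of revolution (dimension three)

For every bounded open body of revolution `Ω` of `ℝ³` (no symmetry besides the rotations about the
axis, no convexity, no regularity of the boundary) there are `Λ` and `c > 0` such that for every
`lam ≥ Λ` the problem `-Δu = u⁵ + lam u`, `u ∈ H¹₀(Ω)`, has at least `c √lam` infinite families of
pairwise different nontrivial solutions, and solutions of different families are not related by a
rotation about the axis and a change of sign.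
-/

set_option autoImplicit false

namespace Pool.Agent.Results.MP_d5b3be_an.BodiesOfRevolution

open Pool.Agent.Work.MP_d5b3be_an.BN

theorem result (Ω : Set E3) (hopen : IsOpen Ω) (hne : Ω.Nonempty) (hb : Bornology.IsBounded Ω)
    (hrot : ∀ (t : ℝ) (x : E3), x ∈ Ω → rot t x ∈ Ω) :
    ∃ Λ c : ℝ, 0 < c ∧ ∀ lam : ℝ, Λ ≤ lam → Fam Ω lam (c * Real.sqrt lam) :=
  Asm_P1 all_ROT all_CRI all_VN1 all_NT1 all_ROS all_DIS all_INE all_RIM Ω hopen hne hb hrot

end Pool.Agent.Results.MP_d5b3be_an.BodiesOfRevolution
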