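import Pool.Agent.Work.MP_d5b3be_an.BN.All
import Pool.Agent.Work.MP_d5b3be_an.BN.Asm2

/-!
# The Brezis-Nirenberg problem in convex bodies of revolution: a uniform threshold

There are absolute constants `C, c > 0` such that for every bounded open convex body of revolution `Ω`
of `ℝ³` and every `lam ≥ C lam1(Ω)` (`lam1` the first Dirichlet eigenvalue) the problem
`-Δu = u⁵ + lam u`, `u ∈ H¹₀(Ω)`, has at least `c √(lam/lam1(Ω))` infinite families of pairwise different
nontrivial solutions, and solutions of different families are not related by a rotation about the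
axis and a change of sign.
-/

set_option autoImplicit false

namespace Pool.Agent.Results.MP_d5b3be_an.ConvexBodies

open Pool.Agent.Work.MP_d5b3be_an.BN

theorem result : ∃ C c : ℝ, 0 < C ∧ 0 < c ∧ ∀ Ω : Set E3, IsOpen Ω → Ω.Nonempty →
    Bornology.IsBounded Ω → Convex ℝ Ω → (∀ (t : ℝ) (x : E3), x ∈ Ω → rot t x ∈ Ω) →
    ∀ lam : ℝ, C * lam1 Ω ≤ lam → Fam Ω lam (c * Real.sqrt (lam / lam1 Ω)) :=
  Asm2_C all_ROT all_CRI all_VN1 all_NT1 all_ROS all_DIS all_INE all_SEC all_RNC all_EG2 all_NZT

end Pool.Agent.Results.MP_d5b3be_an.ConvexBodies
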